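import Pool.Agent.H857.MX.Master
import Pool.Agent.H857.MX.Good
import Pool.Graph.R_pool_sql_team_seeded_2aa45f1a.Q306.FG.GPThms

/-!
# MP_677d84_ag: the Tate conjecture for the function fields of `A × Z`, for arbitrary smooth
varieties `Z` over finite fields and all abelian varieties `A` but a set of isogeny classes of the
exact order of magnitude of its size

Let `g i` (`i` in a finite set `I`) be positive integers. For a prime power `q = p ^ a` let
`families g p a` be the finite set of the families `f i` of Weil polynomials of degrees `2 g i`
relative to `q` with integral Newton polygons. It contains the families of the characteristic
polynomials of the Frobenius endomorphisms of abelian varieties `A i` of dimensions `g i` over the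
field with `q` elements (Weil), which determine the `A i` up to isogeny (Tate). It has about `q ^
(∑ g i (g i + 1) / 4)` elements.

Let the `ρ k` be `r` Weil numbers of weights less than `c` with slopes in `(1 / D) ℤ`, for
instance the eigenvalues of Frobenius on the `ℓ`-adic cohomology of a variety over the field with
`q` elements. The family `f` is exceptional if there is a multiplicative relation between roots of
the `f i`, the numbers `ρ k` and `q`, up to roots of unity, which does not come from the pairs of
conjugate roots `z`, `q / z`.

1. The proportion of the exceptional families among all the families is of the exact order of
magnitude `∑ q ^ (- δ (g i) / 2)`, where `δ (g) = g` for `g ≠ 2` and `δ (2) = 1`: it is at most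
`C` times, and at least `1 / C` times this sum. The constant `C` depends only on the `g i`, on
`r`, `c` and `D` - not on `p`, `q` and the `ρ k`.

2. Let `f` be a family which is not exceptional, and let `A` be an abelian variety over the field
with `Q = q ^ s` elements, `s > 0`, which is isogenous to a product of powers of abelian varieties
`A i` with characteristic polynomials `f i`. Let `Z` be **any** smooth variety over the field with
`Q` elements, proper or not, such that the eigenvalues of Frobenius on the `ℓ`-adic cohomology of
`Z` lie, up to powers, in the group generated by the `ρ k` and `q` (`Generated`).

**For all `i`, `j`, the Frobenius invariant classes in the cohomology group `H^i(F₀ (A × Z),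
ℚ_ℓ(j))` of the generic point of `A × Z` which extend to `A × Z` are the inverse images of unique
Frobenius invariant classes in `H^i(F₀ Z, ℚ_ℓ(j))` which extend to `Z`; and all of the former come
from the higher Chow group `CH^j(Spec F(A × Z), 2 j - i)` (`F` an algebraic closure of the finite
field) if and only if all of the latter come from `CH^j(Spec F(Z), 2 j - i)`** (`GenericReduces`).
If `Z` is an open subset of a variety `Z'`, the condition is that the classes are unramified
outside of `A × (Z' - Z)`. So for these classes question Q1 for the function field of `A × Z` is
question Q1 for the function field of `Z`, in every bidegree. **If all invariant classes of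
bidegree `(i, j)` extend, then question Q1 for `A × Z` and `(i, j)` is equivalent to question Q1
for `Z` and `(i, j)`.** By the theory of weights this is so for `i = 2 j` if `Z` is projective:
the part of `H^(2 j)(F₀ X, ℚ_ℓ(j))` of weight zero is the image of `H^(2 j)(X, ℚ_ℓ(j))` for smooth
projective `X`, and question Q1 says that there are no nonzero invariant classes in it (`j > 0`).
No case of the conjectures of Tate, Beilinson and Parshin is assumed.

What is used of `A` are known theorems (`IsAbelian`): `H(A)` is generated by `H^1`, Frobenius is
diagonalizable on `H^1` (Weil), the theorem of Tate on divisors, and the nilpotence of
homologically trivial correspondences (Kimura). The groups `H^i(X, ℚ_ℓ(j))` over an algebraic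
closure, for `X = Z` and `X = A × Z`, are the groups of bidegree `(i, j)` of a theory which is
modelled by `RelData`, with the formal properties in `IsTheory`: degrees, products with classes on
`A`, push-forward to `Z`, the projection formula, the operation of the correspondences of `A` and
of the Frobenius endomorphism of `Z` (without the Tate twist, so that the Frobenius invariants are
the elements which are multiplied by `Q ^ j`). The cohomology of the generic points is modelled by
`GenericData` and `IsGeneric`: the restrictions and inverse images commute with Frobenius; the
product of a class on `Z` with a class of positive codimension on `A` vanishes at the generic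
point of `A × Z`, as it has a smaller support; the inverse image from the generic point of `Z` to
the one of `A × Z` is injective, and a class comes from a higher Chow group if its inverse image
does (specialization at a closed point of `A`); and the eigenvalues of Frobenius are algebraic
numbers (Deligne).

The framework and the geometric part (`Q306.FG.genericReduces`) are those of the theorem
`AllCMTypesTimes` of the library, which bounds the number of the exceptional slope types of CM
fields and asks that the eigenvalues of the other factor are unrelated to these fields. In other
theorems of the library the exceptional set of isogeny classes has a proportion `O (q ^ (-1 / 6)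
log q)`, without a lower bound, for other factors with eigenvalues in a group of small rank over a
fixed number field. New here are the arbitrary eigenvalues, the uniformity in `p` and the exact
order of magnitude of the exceptional set. The count is that of MP_557161_ag: the slopes bound the
exponents of the relations, up to proportionality, and each relation is a nontrivial algebraic
equation for the coefficients on almost all pencils of Weil polynomials, by the expansions of the
roots at infinity.
-/

set_option autoImplicit false

namespace Pool.Agent.Results.MP_677d84_ag.SharpExceptionalSet

open Pool.Agent.H857.SX Pool.Agent.H857.MX Pool.Agent.Q306.FG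

/-- **The exceptional set.** -/
theorem result {I : Type} [Fintype I] (g : I → ℕ) (hg : ∀ i, 0 < g i) (r D c : ℕ) (hD : 0 < D) :
    ∃ C : ℝ, 0 < C ∧ ∀ (p : ℕ) [Fact p.Prime] (a : ℕ), 0 < a →
      ((families g p a).Finite ∧
        ∏ i, Real.sqrt ((p : ℝ) ^ a) ^ (g i * (g i + 1) / 2) ≤ C * (families g p a).ncard ∧
        (families g p a).ncard ≤ C * ∏ i, Real.sqrt ((p : ℝ) ^ a) ^ (g i * (g i + 1) / 2)) ∧
      ∀ (w : Fin r → ℕ) (ρ : Fin r → ℂ), (∀ k, w k < c ∧ IsWeilNumber p a D (w k) (ρ k)) →
        (({f ∈ families g p a | ¬ Independent f (p ^ a) ρ}.ncard : ℝ) ≤
            C * (rate g ((p : ℝ) ^ a) * (families g p a).ncard) ∧
          rate g ((p : ℝ) ^ a) * (families g p a).ncard ≤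
            C * {f ∈ families g p a | ¬ Independent f (p ^ a) ρ}.ncard) ∧
        ∀ f ∈ families g p a, Independent f (p ^ a) ρ →
          GenericReduces (RootsIn (Generated (p ^ a) ρ)) (p ^ a) f :=
  Pool.Agent.H857.MX.master g hg r D c hD (fun q f R => GenericReduces (RootsIn R) q f)
    fun _ _ _ hq _ h0 hR => genericReduces hq (good_of_noRel hR h0)

end Pool.Agent.Results.MP_677d84_ag.SharpExceptionalSet
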